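import Pool.Agent.H.MP_903d4d_co.Data

set_option autoImplicit false

namespace Pool.Agent.H.MP_903d4d_co

open Pool.Agent.Lib.helper8 Pool.Agent.Lib.helper8.Slice Matrix

abbrev V := Fin 4096

def xr (u v : V) : V := ⟨u.val ^^^ v.val, Nat.xor_lt_two_pow (n := 12) u.isLt v.isLt⟩

theorem xr_xr (u v : V) : xr u (xr u v) = v := by
  apply Fin.ext
  show u.val ^^^ (u.val ^^^ v.val) = v.val
  rw [← Nat.xor_assoc, Nat.xor_self, Nat.zero_xor]

def xrE (u : V) : V ≃ V := Function.Involutive.toPerm (xr u) (xr_xr u)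

noncomputable def e (c s : ℕ) : ℝ := if par 12 (c &&& s) = true then -1 else 1

theorem e_comm (c s : ℕ) : e c s = e s c := by unfold e; rw [Nat.and_comm]

theorem e_xor (c s t : ℕ) : e c (s ^^^ t) = e c s * e c t := by
  unfold e
  rw [Nat.and_xor_distrib_left, par_xor]
  cases par 12 (c &&& s) <;> cases par 12 (c &&& t) <;> simp

theorem e_zero (c : ℕ) : e c 0 = 1 := by simp [e, par_zero]

theorem e_sq (c s : ℕ) : e c s * e c s = 1 := by rw [← e_xor, Nat.xor_self, e_zero]

theorem orth (w : ℕ) (hw : w < 4096) : ∑ c : V, e c.val w = if w = 0 then 4096 else 0 := by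
  split_ifs with h
  · subst h; simp [e_zero]
  · obtain ⟨i, hi⟩ := Nat.exists_testBit_of_ne_zero h
    have hi' : i < 12 := by
      by_contra hh
      have : w < 2 ^ i := lt_of_lt_of_le (b := 2 ^ 12) hw (Nat.pow_le_pow_right (by norm_num) (not_lt.mp hh))
      rw [Nat.testBit_lt_two_pow this] at hi
      exact Bool.false_ne_true hi
    have hp : 2 ^ i < 4096 := Nat.pow_lt_pow_right (a := 2) (by norm_num) hi'
    have h1 := Equiv.sum_comp (xrE ⟨2 ^ i, hp⟩) (fun c : V => e c.val w)
    have h2 : ∀ c : V, e (xrE ⟨2 ^ i, hp⟩ c).val w = - e c.val w := by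
      intro c
      show e (2 ^ i ^^^ c.val) w = _
      rw [e_comm, e_xor, e_comm w c]
      have : e w (2 ^ i) = -1 := by
        unfold e
        rw [Nat.and_two_pow, hi]
        simp [par_two_pow, hi']
      rw [this]; ring
    simp only [h2, Finset.sum_neg_distrib] at h1
    linarith

theorem sum_e (c : ℕ) (hc : c < 4096) (L : List ℕ) :
    (L.map (e c)).sum = L.length - 2 * (val c (counter (Slice.row 12 12) L) : ℝ) := by
  rw [val_counter]
  induction L with
  | nil => simp
  | cons a L ih =>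
    rw [List.map_cons, List.sum_cons, ih, List.countP_cons, row_testBit 12 a c hc 12 le_rfl]
    unfold e
    cases par 12 (c &&& a) <;> simp <;> ring

noncomputable def F (x y : ℝ) (s : ℕ) : ℝ :=
  if s = 0 then 1 else if s ∈ L1 then x else if s ∈ L2 then y else 0

theorem lt_of_mem (a : ℕ) (h : a ∈ L1 ++ L2) : a < 4096 ∧ SM.testBit a = true := by
  have := List.all_eq_true.mp in_SM a h
  simp only [Bool.and_eq_true, Nat.blt_eq] at this
  exact ⟨this.2, this.1⟩

theorem sum_ind (L : List ℕ) (hL : L.Nodup) (h : ∀ a ∈ L, a < 4096) (g : ℕ → ℝ) :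
    ∑ s : V, (if s.val ∈ L then g s.val else 0) = (L.map g).sum := by
  rw [Fin.sum_univ_eq_sum_range (fun s => if s ∈ L then g s else 0) 4096, ← Finset.sum_filter,
    ← List.sum_toFinset g hL]
  refine Finset.sum_congr ?_ (fun _ _ => rfl)
  ext a
  simp only [Finset.mem_filter, Finset.mem_range, List.mem_toFinset]
  exact ⟨fun p => p.2, fun p => ⟨h a p, p⟩⟩

theorem fourier (x y : ℝ) (c : ℕ) (hc : c < 4096) : ∑ s : V, F x y s.val * e c s.val =
    1 + x * (24 - 2 * (val c C1 : ℝ)) + y * (120 - 2 * (val c C2 : ℝ)) := by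
  have hn := nd
  rw [List.nodup_cons, List.nodup_append] at hn
  obtain ⟨h0, n1, n2, hd⟩ := hn
  have hF : ∀ s : ℕ, F x y s * e c s = (if s ∈ [0] then e c s else 0) +
      x * (if s ∈ L1 then e c s else 0) + y * (if s ∈ L2 then e c s else 0) := by
    intro s
    unfold F
    by_cases a0 : s = 0
    · subst a0
      have b1 : 0 ∉ L1 := fun p => h0 (List.mem_append_left _ p)
      have b2 : 0 ∉ L2 := fun p => h0 (List.mem_append_right _ p)
      simp [b1, b2]
    · by_cases a1 : s ∈ L1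
      · have b2 : s ∉ L2 := fun p => hd s a1 s p rfl
        simp [a0, a1, b2]
      · by_cases a2 : s ∈ L2 <;> simp [a0, a1, a2]
  simp only [hF, Finset.sum_add_distrib, ← Finset.mul_sum]
  rw [sum_ind [0] (by simp) (by simp), sum_ind L1 n1 (fun a p => (lt_of_mem a (List.mem_append_left _ p)).1),
    sum_ind L2 n2 (fun a p => (lt_of_mem a (List.mem_append_right _ p)).1), sum_e c hc L1, sum_e c hc L2,
    hC1, hC2]
  have l1 : L1.length = 24 := rfl
  have l2 : L2.length = 120 := by decide +kernel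
  rw [l1, l2]
  simp [e_zero]

noncomputable def A (x y : ℝ) : Matrix V V ℝ := Matrix.of fun u v => F x y (u.val ^^^ v.val)

theorem A_psd (x y : ℝ) (h : ∀ c : V, 0 ≤ ∑ s : V, F x y s.val * e c.val s.val) :
    (A x y).PosSemidef := by
  let E : Matrix V V ℝ := Matrix.of fun c u => e c.val u.val
  have hd : (Matrix.diagonal (fun c : V => (∑ s : V, F x y s.val * e c.val s.val) / 4096)).PosSemidef :=
    Matrix.PosSemidef.diagonal fun c => div_nonneg (h c) (by norm_num)
  convert hd.conjTranspose_mul_mul_same E using 1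
  ext u v
  rw [Matrix.mul_apply]
  simp only [Matrix.mul_diagonal, Matrix.conjTranspose_apply, star_trivial, E, Matrix.of_apply, A]
  have h1 : ∀ c : V, e c.val u.val * ((∑ s : V, F x y s.val * e c.val s.val) / 4096) * e c.val v.val =
      ∑ s : V, F x y s.val / 4096 * e c.val ((u.val ^^^ v.val) ^^^ s.val) := by
    intro c
    rw [Finset.sum_div, Finset.mul_sum, Finset.sum_mul]
    refine Finset.sum_congr rfl fun s _ => ?_
    rw [e_xor, e_xor]; ring
  simp only [h1]
  rw [Finset.sum_comm]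
  simp only [← Finset.mul_sum]
  have h2 : ∀ s : V, ∑ c : V, e c.val ((u.val ^^^ v.val) ^^^ s.val) =
      if s = xr u v then 4096 else 0 := by
    intro s
    rw [orth ((u.val ^^^ v.val) ^^^ s.val) (xr (xr u v) s).isLt]
    refine if_congr ?_ rfl rfl
    rw [Nat.xor_eq_zero_iff, Fin.ext_iff, eq_comm]
    rfl
  simp only [h2, mul_ite, mul_zero, Finset.sum_ite_eq', Finset.mem_univ, if_true]
  show _ = F x y (u.val ^^^ v.val) / 4096 * 4096
  ring

theorem A_not (x y : ℝ) (c : ℕ) (h : (A x y).PosSemidef) : 0 ≤ ∑ s : V, F x y s.val * e c s.val := by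
  have := h.dotProduct_mulVec_nonneg (fun u => e c u.val)
  simp only [dotProduct, Matrix.mulVec, star_trivial, A, Matrix.of_apply] at this
  have h1 : ∀ u : V, e c u.val * ∑ v : V, F x y (u.val ^^^ v.val) * e c v.val =
      ∑ s : V, F x y s.val * e c s.val := by
    intro u
    rw [Finset.mul_sum, ← Equiv.sum_comp (xrE u) (fun s : V => F x y s.val * e c s.val)]
    refine Finset.sum_congr rfl fun v _ => ?_
    show _ = F x y (u.val ^^^ v.val) * e c (u.val ^^^ v.val)
    rw [e_xor]; ring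
  simp only [h1, Finset.sum_const, Finset.card_univ, Fintype.card_fin, nsmul_eq_mul] at this
  exact (mul_nonneg_iff_of_pos_left (by norm_num : (0 : ℝ) < ((4096 : ℕ) : ℝ))).mp this

noncomputable def p : ℝ := 151 / 200
noncomputable def q : ℝ := 29 / 50

theorem psd : (A (p ^ 8) (q ^ 8)).PosSemidef := by
  refine A_psd _ _ fun c => ?_
  rw [fourier _ _ _ c.isLt]
  have h := spec_ok
  simp only [allLt_iff] at h
  have h1 := h (c.val / 64) (by omega) (c.val % 64) (by omega)
  rw [Nat.div_add_mod] at h1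
  simp only [ok, Bool.or_eq_true, Bool.and_eq_true, Nat.ble_eq] at h1
  generalize val c.val C1 = a at h1 ⊢
  generalize val c.val C2 = b at h1 ⊢
  have hp : (0 : ℝ) ≤ p ^ 8 := by positivity
  have hq : (0 : ℝ) ≤ q ^ 8 := by positivity
  have k1 : 72 * q ^ 8 ≤ 1 := by unfold q; norm_num
  have k2 : 8 * p ^ 8 + 12 * q ^ 8 ≤ 1 := by unfold p q; norm_num
  have k3 : 24 * p ^ 8 ≤ 1 + 120 * q ^ 8 := by unfold p q; norm_num
  rcases h1 with (⟨a1, b1⟩ | ⟨a1, b1⟩) | ⟨a1, b1⟩
  · have a2 : (a : ℝ) ≤ 12 := by exact_mod_cast a1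
    have b2 : (b : ℝ) ≤ 96 := by exact_mod_cast b1
    nlinarith [mul_nonneg hp (sub_nonneg.mpr a2), mul_nonneg hq (sub_nonneg.mpr b2)]
  · have a2 : (a : ℝ) ≤ 16 := by exact_mod_cast a1
    have b2 : (b : ℝ) ≤ 66 := by exact_mod_cast b1
    nlinarith [mul_nonneg hp (sub_nonneg.mpr a2), mul_nonneg hq (sub_nonneg.mpr b2)]
  · have a2 : (a : ℝ) ≤ 24 := by exact_mod_cast a1
    have b2 : (b : ℝ) ≤ 0 := by exact_mod_cast b1
    nlinarith [mul_nonneg hp (sub_nonneg.mpr a2), mul_nonneg hq (sub_nonneg.mpr b2)]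

theorem pow_map : (A (p ^ 8) (q ^ 8)).map (fun x : ℝ => x ^ (9 / 8 : ℝ)) = A (p ^ 9) (q ^ 9) := by
  have k : ∀ t : ℝ, 0 ≤ t → (t ^ 8) ^ (9 / 8 : ℝ) = t ^ 9 := by
    intro t ht
    rw [← Real.rpow_natCast, ← Real.rpow_mul ht, ← Real.rpow_natCast]
    norm_num
  ext u v
  simp only [Matrix.map_apply, A, Matrix.of_apply, F]
  split_ifs
  · simp
  · exact k p (by unfold p; norm_num)
  · exact k q (by unfold q; norm_num)
  · exact Real.zero_rpow (by norm_num)

theorem not_psd : ¬ (A (p ^ 9) (q ^ 9)).PosSemidef := by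
  intro h
  have := A_not _ _ 4095 h
  rw [fourier _ _ _ (by norm_num), top.1, top.2] at this
  unfold p q at this
  norm_num at this

def G : SimpleGraph V where
  Adj u v := (u.val ^^^ v.val) ∈ L1 ++ L2
  symm := ⟨fun u v h => by rwa [Nat.xor_comm]⟩
  loopless := ⟨fun u h => by
    rw [Nat.xor_self] at h
    exact (List.nodup_cons.mp nd).1 h⟩

theorem tri (u v w : V) (h1 : G.Adj u v) (h2 : G.Adj u w) (h3 : G.Adj v w) : False := by
  have a := List.all_eq_true.mp (List.all_eq_true.mp capb _ h1) _ h2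
  have b := (lt_of_mem _ h3).2
  have c : (u.val ^^^ v.val) ^^^ (u.val ^^^ w.val) = v.val ^^^ w.val := by
    rw [Nat.xor_comm u.val v.val, Nat.xor_assoc, ← Nat.xor_assoc u.val, Nat.xor_self, Nat.zero_xor]
  rw [c, b] at a
  exact Bool.false_ne_true a

theorem A_nonneg (i j : V) : 0 ≤ A (p ^ 8) (q ^ 8) i j := by
  simp only [A, Matrix.of_apply, F]
  split_ifs <;> positivity

theorem A_zero (x y : ℝ) (i j : V) (h : i ≠ j) (h' : ¬ G.Adj i j) : A x y i j = 0 := by
  have a0 : ¬ (i.val ^^^ j.val = 0) := fun e => h (Fin.ext (Nat.xor_eq_zero_iff.mp e))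
  have a1 : (i.val ^^^ j.val) ∉ L1 := fun e => h' (List.mem_append_left _ e)
  have a2 : (i.val ^^^ j.val) ∉ L2 := fun e => h' (List.mem_append_right _ e)
  simp only [A, Matrix.of_apply, F, if_neg a0, if_neg a1, if_neg a2]

end Pool.Agent.H.MP_903d4d_co
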